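import Pool.Agent.H38.WT.Targets

/-!
# Row D12 of `wt_modules`: containment of the increasing path in terms of cuts
-/

set_option autoImplicit false

noncomputable section

namespace Pool.Agent.H75.WT

open Pool.Agent.H38.WT

/-- From a chain of the increasing path to the condition on cuts. -/
theorem con12_of_chain {n m : ℕ} {U : SimpleGraph (Fin m)} (hn : 3 ≤ n)
    {g : ℕ → Set (Fin m)} {r : Fin n → Fin m} (hc : Chain U 1 g r) :
    Con12 (n - 2) (cuts U) := by
  have hm : ∀ (a : ℕ) (h : a < n), r ⟨a, h⟩ ∈ g (a + 1) := fun a h => hc.mem ⟨a, h⟩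
  have hnm : ∀ (a : ℕ) (h : a < n), r ⟨a, h⟩ ∉ g a := fun a h => hc.nmem ⟨a, h⟩
  have hlt : ∀ (a b : ℕ) (ha : a < n) (hb : b < n), a < b → r ⟨a, ha⟩ < r ⟨b, hb⟩ :=
    fun a b ha hb hab => hc.mono (by simpa [Fin.lt_def] using hab)
  have h0 : 0 < n := by omega
  have h1 : 1 < n := by omega
  have h2 : 2 < n := by omega
  refine ⟨g 1, hc.cut 1 one_pos h1, g 2, hc.cut 2 (by norm_num) h2, hc.sub 1 h1,
    r ⟨0, h0⟩, hm 0 h0, r ⟨1, h1⟩, hm 1 h1, hnm 1 h1, hlt 0 1 h0 h1 one_pos, ?_⟩
  refine ⟨fun i => g (i + 2), fun i => if h : i + 2 < n then r ⟨i + 2, h⟩ else r ⟨0, h0⟩,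
    rfl, ?_, ?_, ?_⟩
  · have h : 0 + 2 < n := by omega
    simp only [h, dif_pos]
    exact hlt 1 (0 + 2) h1 h (by omega)
  · intro i hi
    have h : i + 2 < n := by omega
    simp only [h, dif_pos]
    exact ⟨hc.cut (i + 2) (by omega) h, hnm (i + 2) h⟩
  · intro i hi
    have h : i + 2 < n := by omega
    have h' : i + 1 + 2 < n := by omega
    simp only [h, h', dif_pos]
    exact ⟨hc.sub (i + 2) h, hm (i + 2) h, hlt (i + 2) (i + 1 + 2) h h' (by omega)⟩

/-- The survivors. -/
def surv {m : ℕ} (x y : Fin m) (s : ℕ → Fin m) : ℕ → Fin m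
  | 0 => x
  | 1 => y
  | (i + 2) => s i

/-- The chain of cuts. -/
def chn {m : ℕ} (n : ℕ) (G' : Set (Fin m)) (g : ℕ → Set (Fin m)) : ℕ → Set (Fin m)
  | 0 => ∅
  | 1 => G'
  | (i + 2) => if i + 2 < n then g i else Set.univ

/-- From the condition on cuts to a chain. -/
theorem chain_of_con12 {n m : ℕ} {U : SimpleGraph (Fin m)} (hn : 3 ≤ n)
    (h : Con12 (n - 2) (cuts U)) : ∃ (g : ℕ → Set (Fin m)) (r : Fin n → Fin m),
      Chain U 1 g r := by
  obtain ⟨G', hG', G, hG, hGG, x, hx, y, hy, hy', hxy, g, s, hg0, hs0, h3, h4⟩ := h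
  have hstep : ∀ a, a + 1 < n → surv x y s a < surv x y s (a + 1) := by
    intro a ha
    match a, ha with
    | 0, _ => exact hxy
    | 1, _ => exact hs0
    | (i + 2), ha => exact (h4 i (by omega)).2.2
  have hlt : ∀ a k, a + k + 1 < n → surv x y s a < surv x y s (a + k + 1) := by
    intro a k
    induction k with
    | zero => intro h; exact hstep a h
    | succ k ih => intro h; exact (ih (by omega)).trans (hstep (a + k + 1) h)
  refine ⟨chn n G' g, fun a => surv x y s a, ?_, rfl, ?_, ?_, ?_, ?_, ?_⟩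
  · intro a b hab
    have hab' : (a : ℕ) < b := hab
    obtain ⟨k, hk⟩ := Nat.exists_eq_add_of_lt hab'
    show surv x y s a < surv x y s b
    rw [hk]
    exact hlt a k (by rw [← hk]; exact b.2)
  · obtain ⟨k, rfl⟩ : ∃ k, n = k + 2 := ⟨n - 2, by omega⟩
    show (if k + 2 < k + 2 then g k else Set.univ) = Set.univ
    rw [if_neg (lt_irrefl _)]
  · intro a ha
    match a, ha with
    | 0, _ => exact Set.empty_subset _
    | 1, _ =>
      show G' ⊆ if 0 + 2 < n then g 0 else Set.univ
      rw [if_pos (by omega), hg0]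
      exact hGG
    | (i + 2), ha =>
      show (if i + 2 < n then g i else Set.univ) ⊆ if i + 1 + 2 < n then g (i + 1) else Set.univ
      by_cases h : i + 1 + 2 < n
      · rw [if_pos h, if_pos ha]
        exact (h4 i (by omega)).1
      · rw [if_neg h]
        exact Set.subset_univ _
  · intro a ha0 ha
    match a, ha0, ha with
    | 1, _, _ => exact hG'
    | (i + 2), _, ha =>
      show (if i + 2 < n then g i else Set.univ) ∈ cuts U
      rw [if_pos ha]
      exact (h3 i (by omega)).1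
  · rintro ⟨a, ha⟩
    show surv x y s a ∈ chn n G' g (a + 1)
    match a, ha with
    | 0, _ => exact hx
    | 1, _ =>
      show y ∈ if 0 + 2 < n then g 0 else Set.univ
      rw [if_pos (by omega), hg0]
      exact hy
    | (i + 2), ha =>
      show s i ∈ if i + 1 + 2 < n then g (i + 1) else Set.univ
      by_cases h : i + 1 + 2 < n
      · rw [if_pos h]
        exact (h4 i (by omega)).2.1
      · rw [if_neg h]
        exact Set.mem_univ _
  · rintro ⟨a, ha⟩
    show surv x y s a ∉ chn n G' g a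
    match a, ha with
    | 0, _ => exact Set.notMem_empty _
    | 1, _ => exact hy'
    | (i + 2), ha =>
      show s i ∉ if i + 2 < n then g i else Set.univ
      rw [if_pos ha]
      exact (h3 i (by omega)).2

theorem pf_D12 (h1 : T_DWF) (h2 : T_DWB) (h3 : T_PT) : T_D12 := by
  intro n m U hn hU
  have hw : PathWord (pI n) 1 := (h3 n hn).2.2.1
  constructor
  · intro h
    have hne : Nonempty {p : (Fin m → Fin n) × (Fin n → Fin m) //
        IsDisplay (pI n) U p.1 p.2} := (Nat.card_pos_iff.mp h).1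
    obtain ⟨⟨f, r⟩, hd⟩ := hne
    obtain ⟨g, hg⟩ := h1 n m (pI n) U 1 f r hw hd
    exact con12_of_chain hn hg
  · intro h
    obtain ⟨g, r, hc⟩ := chain_of_con12 hn h
    obtain ⟨f, hf⟩ := h2 n m (pI n) U 1 g r hw hU hc
    exact Nat.card_pos_iff.mpr ⟨⟨⟨(f, r), hf⟩⟩, inferInstance⟩

end Pool.Agent.H75.WT
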