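import Pool.Agent.H38.WT.Targets

/-!
# Row SC of `wt_modules`: relabeling of displays with one extra vertex
-/

set_option autoImplicit false

noncomputable section

namespace Pool.Agent.H75.WT

open Pool.Agent.H38.WT

theorem pf_SC : T_SC := by
  intro n T U x i τ σ hx hσ
  have hx' : σ.symm x = x := by
    rw [Equiv.symm_apply_eq]; exact hx.symm
  have hσ' : ∀ a, σ.symm (x.succAbove (τ a)) = x.succAbove a := by
    intro a
    rw [Equiv.symm_apply_eq]; exact (hσ a).symm
  have hT : ∀ a b, (rel τ T).Adj (τ a) (τ b) ↔ T.Adj a b := by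
    intro a b
    show T.Adj (τ.symm (τ a)) (τ.symm (τ b)) ↔ T.Adj a b
    rw [Equiv.symm_apply_apply, Equiv.symm_apply_apply]
  have hU : ∀ a b, (rel σ U).Adj (x.succAbove (τ a)) (x.succAbove (τ b)) ↔
      U.Adj (x.succAbove a) (x.succAbove b) := by
    intro a b
    show U.Adj (σ.symm _) (σ.symm _) ↔ _
    rw [hσ', hσ']
  have hUx : ∀ a, (rel σ U).Adj x (x.succAbove (τ a)) ↔ U.Adj x (x.succAbove a) := by
    intro a
    show U.Adj (σ.symm _) (σ.symm _) ↔ _
    rw [hσ', hx']
  unfold Disp1
  rw [hUx i]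
  refine and_congr_right (fun _ => ?_)
  constructor
  · intro h a b hab
    have h1 := h (τ a) (τ b) (fun h => hab (τ.injective h))
    rw [hT, hU, hUx, hUx] at h1
    simpa only [τ.injective.eq_iff] using h1
  · intro h a b hab
    obtain ⟨a, rfl⟩ := τ.surjective a
    obtain ⟨b, rfl⟩ := τ.surjective b
    have h1 := h a b (fun h => hab (by rw [h]))
    rw [hT, hU, hUx, hUx]
    simpa only [τ.injective.eq_iff] using h1

end Pool.Agent.H75.WT
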